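import Mathlib
import Pool.Agent.H205R2.NR.SqFree

set_option autoImplicit false

namespace Pool.Agent.Results.MP_36f7ac_an.AllFourFail

open Filter Topology Matrix

/-- Real `N × N` matrices. -/
abbrev Mat (N : ℕ) := Matrix (Fin N) (Fin N) ℝ

variable {N : ℕ}

/-- The product `A_n B_n ⋯ A_1 B_1`. -/
def altProd {n : ℕ} (A B : Fin n → Mat N) : Mat N :=
  (List.ofFn fun i => A i * B i).reverse.prod

/-- The spectral radius of a real matrix (the largest modulus of its complex eigenvalues). -/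
noncomputable def rho (X : Mat N) : ℝ := (spectralRadius ℂ (X.map (algebraMap ℝ ℂ))).toReal

/-- `max` over `(A_1,…,A_n)` of the `min` over `(B_1,…,B_n)` of `f (A_n B_n ⋯ A_1 B_1)`. -/
noncomputable def maxMin (f : Mat N → ℝ) (𝒜 ℬ : Finset (Mat N)) (n : ℕ) : ℝ :=
  ⨆ A : Fin n → 𝒜, ⨅ B : Fin n → ℬ, f (altProd (fun i => (A i : Mat N)) (fun i => (B i : Mat N)))

/-- `min` over `(B_1,…,B_n)` of the `max` over `(A_1,…,A_n)` of `f (A_n B_n ⋯ A_1 B_1)`. -/
noncomputable def minMax (f : Mat N → ℝ) (𝒜 ℬ : Finset (Mat N)) (n : ℕ) : ℝ :=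
  ⨅ B : Fin n → ℬ, ⨆ A : Fin n → 𝒜, f (altProd (fun i => (A i : Mat N)) (fun i => (B i : Mat N)))

/-- The sequence of `n`-th roots of a sequence. -/
noncomputable def roots (u : ℕ → ℝ) (n : ℕ) : ℝ := u n ^ (1 / (n : ℝ))

/-- `μ̂ = limsup_n (μ̄_n)^{1/n}` -/
noncomputable def muHat (𝒜 ℬ : Finset (Mat N)) : ℝ := limsup (roots (maxMin rho 𝒜 ℬ)) atTop
/-- `μ̌ = liminf_n (μ̄_n)^{1/n}` -/
noncomputable def muCheck (𝒜 ℬ : Finset (Mat N)) : ℝ := liminf (roots (maxMin rho 𝒜 ℬ)) atTop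
/-- `η̂ = limsup_n (η̄_n)^{1/n}` -/
noncomputable def etaHat (𝒜 ℬ : Finset (Mat N)) : ℝ := limsup (roots (minMax rho 𝒜 ℬ)) atTop
/-- `η̌ = liminf_n (η̄_n)^{1/n}` -/
noncomputable def etaCheck (𝒜 ℬ : Finset (Mat N)) : ℝ := liminf (roots (minMax rho 𝒜 ℬ)) atTop

/-! ### Generalities on max-min and min-max -/

section gen

variable {f : Mat N → ℝ} {𝒜 ℬ : Finset (Mat N)} {n : ℕ}

lemma exists_B (h𝒜 : 𝒜.Nonempty) (hℬ : ℬ.Nonempty) (A : Fin n → 𝒜) : ∃ B : Fin n → ℬ,
    f (altProd (fun i => (A i : Mat N)) (fun i => (B i : Mat N))) ≤ maxMin f 𝒜 ℬ n := by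
  have : Nonempty ℬ := hℬ.to_subtype
  have : Nonempty 𝒜 := h𝒜.to_subtype
  obtain ⟨B, hB⟩ := exists_eq_ciInf_of_finite
    (f := fun B : Fin n → ℬ => f (altProd (fun i => (A i : Mat N)) (fun i => (B i : Mat N))))
  refine ⟨B, hB.le.trans ?_⟩
  exact le_ciSup (f := fun A : Fin n → 𝒜 => ⨅ B : Fin n → ℬ,
    f (altProd (fun i => (A i : Mat N)) (fun i => (B i : Mat N)))) (Set.finite_range _).bddAbove A

lemma maxMin_le (h𝒜 : 𝒜.Nonempty) {c : ℝ}
    (h : ∀ A : Fin n → 𝒜, ∃ B : Fin n → ℬ,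
      f (altProd (fun i => (A i : Mat N)) (fun i => (B i : Mat N))) ≤ c) : maxMin f 𝒜 ℬ n ≤ c := by
  have : Nonempty 𝒜 := h𝒜.to_subtype
  refine ciSup_le fun A => ?_
  obtain ⟨B, hB⟩ := h A
  exact (ciInf_le (Set.finite_range _).bddBelow B).trans hB

lemma le_maxMin (hℬ : ℬ.Nonempty) {c : ℝ}
    (h : ∃ A : Fin n → 𝒜, ∀ B : Fin n → ℬ,
      c ≤ f (altProd (fun i => (A i : Mat N)) (fun i => (B i : Mat N)))) : c ≤ maxMin f 𝒜 ℬ n := by
  have : Nonempty ℬ := hℬ.to_subtype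
  obtain ⟨A, hA⟩ := h
  refine le_trans ?_ (le_ciSup (f := fun A : Fin n → 𝒜 => ⨅ B : Fin n → ℬ,
    f (altProd (fun i => (A i : Mat N)) (fun i => (B i : Mat N)))) (Set.finite_range _).bddAbove A)
  exact le_ciInf hA

lemma exists_B' (h𝒜 : 𝒜.Nonempty) (hℬ : ℬ.Nonempty) : ∃ B : Fin n → ℬ, ∀ A : Fin n → 𝒜,
    f (altProd (fun i => (A i : Mat N)) (fun i => (B i : Mat N))) ≤ minMax f 𝒜 ℬ n := by
  have : Nonempty ℬ := hℬ.to_subtype
  have : Nonempty 𝒜 := h𝒜.to_subtype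
  obtain ⟨B, hB⟩ := exists_eq_ciInf_of_finite
    (f := fun B : Fin n → ℬ => ⨆ A : Fin n → 𝒜,
      f (altProd (fun i => (A i : Mat N)) (fun i => (B i : Mat N))))
  refine ⟨B, fun A => le_trans ?_ hB.le⟩
  exact le_ciSup (f := fun A : Fin n → 𝒜 =>
    f (altProd (fun i => (A i : Mat N)) (fun i => (B i : Mat N)))) (Set.finite_range _).bddAbove A

lemma minMax_le (h𝒜 : 𝒜.Nonempty) {c : ℝ}
    (h : ∃ B : Fin n → ℬ, ∀ A : Fin n → 𝒜,
      f (altProd (fun i => (A i : Mat N)) (fun i => (B i : Mat N))) ≤ c) : minMax f 𝒜 ℬ n ≤ c := by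
  have : Nonempty 𝒜 := h𝒜.to_subtype
  obtain ⟨B, hB⟩ := h
  exact (ciInf_le (Set.finite_range _).bddBelow B).trans (ciSup_le hB)

lemma le_minMax (hℬ : ℬ.Nonempty) {c : ℝ}
    (h : ∀ B : Fin n → ℬ, ∃ A : Fin n → 𝒜,
      c ≤ f (altProd (fun i => (A i : Mat N)) (fun i => (B i : Mat N)))) : c ≤ minMax f 𝒜 ℬ n := by
  have : Nonempty ℬ := hℬ.to_subtype
  refine le_ciInf fun B => ?_
  obtain ⟨A, hA⟩ := h B
  exact hA.trans (le_ciSup (f := fun A : Fin n → 𝒜 =>
    f (altProd (fun i => (A i : Mat N)) (fun i => (B i : Mat N)))) (Set.finite_range _).bddAbove A)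

end gen

lemma altProd_append {m n : ℕ} (A B : Fin (m + n) → Mat N) :
    altProd A B = altProd (fun i => A (Fin.natAdd m i)) (fun i => B (Fin.natAdd m i)) *
      altProd (fun i => A (Fin.castAdd n i)) (fun i => B (Fin.castAdd n i)) := by
  unfold altProd
  rw [← List.prod_append, ← List.reverse_append, ← List.ofFn_fin_append]
  congr 3
  funext i
  refine Fin.addCases (fun j => ?_) (fun j => ?_) i <;> simp

lemma altProd_succ {n : ℕ} (A B : Fin (n + 1) → Mat N) :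
    altProd A B = A (Fin.last n) * B (Fin.last n) *
      altProd (fun i => A i.castSucc) (fun i => B i.castSucc) := by
  unfold altProd
  rw [List.ofFn_succ']
  simp

/-- submultiplicativity of max-min -/
lemma maxMin_mul {f : Mat N → ℝ} (hf : ∀ X Y, f (X * Y) ≤ f X * f Y) (h0 : ∀ X, 0 ≤ f X)
    {𝒜 ℬ : Finset (Mat N)} (h𝒜 : 𝒜.Nonempty) (hℬ : ℬ.Nonempty) (m n : ℕ) :
    maxMin f 𝒜 ℬ (m + n) ≤ maxMin f 𝒜 ℬ m * maxMin f 𝒜 ℬ n := by
  refine maxMin_le h𝒜 fun A => ?_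
  obtain ⟨B₁, h₁⟩ := exists_B (f := f) h𝒜 hℬ (fun i : Fin m => A (Fin.castAdd n i))
  obtain ⟨B₂, h₂⟩ := exists_B (f := f) h𝒜 hℬ (fun i : Fin n => A (Fin.natAdd m i))
  refine ⟨Fin.append B₁ B₂, ?_⟩
  rw [altProd_append]
  refine (hf _ _).trans ?_
  simp only [Fin.append_left, Fin.append_right]
  rw [mul_comm]
  exact mul_le_mul h₁ h₂ (h0 _) ((h0 _).trans h₁)

/-- submultiplicativity of min-max -/
lemma minMax_mul {f : Mat N → ℝ} (hf : ∀ X Y, f (X * Y) ≤ f X * f Y) (h0 : ∀ X, 0 ≤ f X)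
    {𝒜 ℬ : Finset (Mat N)} (h𝒜 : 𝒜.Nonempty) (hℬ : ℬ.Nonempty) (m n : ℕ) :
    minMax f 𝒜 ℬ (m + n) ≤ minMax f 𝒜 ℬ m * minMax f 𝒜 ℬ n := by
  obtain ⟨B₁, h₁⟩ := exists_B' (f := f) (n := m) h𝒜 hℬ
  obtain ⟨B₂, h₂⟩ := exists_B' (f := f) (n := n) h𝒜 hℬ
  refine minMax_le h𝒜 ⟨Fin.append B₁ B₂, fun A => ?_⟩
  rw [altProd_append]
  refine (hf _ _).trans ?_
  simp only [Fin.append_left, Fin.append_right]
  rw [mul_comm]
  exact mul_le_mul (h₁ _) (h₂ _) (h0 _) ((h0 _).trans (h₁ fun i => A (Fin.castAdd n i)))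

/-- Fekete for a submultiplicative sequence bounded below by `1`. -/
lemma fekete {u : ℕ → ℝ} (h1 : ∀ n, 1 ≤ u n) (hu : ∀ m n, u (m + n) ≤ u m * u n) :
    ∃ L : ℝ, 1 ≤ L ∧ Tendsto (roots u) atTop (𝓝 L) := by
  have hpos : ∀ n, 0 < u n := fun n => one_pos.trans_le (h1 n)
  have hs : Subadditive (fun n => Real.log (u n)) := by
    intro m n
    show Real.log (u (m + n)) ≤ Real.log (u m) + Real.log (u n)
    rw [← Real.log_mul (hpos m).ne' (hpos n).ne']
    exact Real.log_le_log (hpos _) (hu m n)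
  have hnn : ∀ n : ℕ, 0 ≤ Real.log (u n) / n := fun n =>
    div_nonneg (Real.log_nonneg (h1 n)) (Nat.cast_nonneg n)
  have ht := hs.tendsto_lim ⟨0, by rintro _ ⟨n, rfl⟩; exact hnn n⟩
  refine ⟨Real.exp hs.lim, Real.one_le_exp (ge_of_tendsto' ht hnn), ?_⟩
  refine ((Real.continuous_exp.tendsto _).comp ht).congr fun n => ?_
  simp only [Function.comp, roots]
  rw [Real.rpow_def_of_pos (hpos n)]
  congr 1
  ring

/-! ### The sum of the moduli of the entries -/

/-- The sum of the moduli of the entries. -/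
noncomputable def S (X : Mat N) : ℝ := ∑ i, ∑ j, |X i j|

lemma S_nonneg (X : Mat N) : 0 ≤ S X :=
  Finset.sum_nonneg fun _ _ => Finset.sum_nonneg fun _ _ => abs_nonneg _

lemma entry_le_S (X : Mat N) (i j : Fin N) : |X i j| ≤ S X :=
  (Finset.single_le_sum (f := fun j => |X i j|) (fun _ _ => abs_nonneg _) (Finset.mem_univ j)).trans
    (Finset.single_le_sum (f := fun i => ∑ j, |X i j|)
      (fun _ _ => Finset.sum_nonneg fun _ _ => abs_nonneg _) (Finset.mem_univ i))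

lemma S_mul (X Y : Mat N) : S (X * Y) ≤ S X * S Y := by
  have h1 : ∀ k : Fin N, ∑ j, |Y k j| ≤ S Y := fun k =>
    Finset.single_le_sum (f := fun i => ∑ j, |Y i j|)
      (fun _ _ => Finset.sum_nonneg fun _ _ => abs_nonneg _) (Finset.mem_univ k)
  unfold S at *
  rw [Finset.sum_mul]
  refine Finset.sum_le_sum fun i _ => ?_
  calc ∑ j, |(X * Y) i j| ≤ ∑ j, ∑ k, |X i k| * |Y k j| := by
        refine Finset.sum_le_sum fun j _ => ?_
        rw [Matrix.mul_apply]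
        refine (Finset.abs_sum_le_sum_abs _ _).trans (le_of_eq ?_)
        exact Finset.sum_congr rfl fun k _ => abs_mul _ _
    _ = ∑ k, |X i k| * ∑ j, |Y k j| := by
        rw [Finset.sum_comm]
        exact Finset.sum_congr rfl fun k _ => (Finset.mul_sum _ _ _).symm
    _ ≤ ∑ k, |X i k| * ∑ i, ∑ j, |Y i j| :=
        Finset.sum_le_sum fun k _ => mul_le_mul_of_nonneg_left (h1 k) (abs_nonneg _)
    _ = (∑ k, |X i k|) * ∑ i, ∑ j, |Y i j| := (Finset.sum_mul _ _ _).symm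

lemma S_sub_le (X Y : Mat N) : S X ≤ S (X - Y) + S Y := by
  unfold S
  rw [← Finset.sum_add_distrib]
  refine Finset.sum_le_sum fun i _ => ?_
  rw [← Finset.sum_add_distrib]
  refine Finset.sum_le_sum fun j _ => ?_
  have := abs_add_le (X i j - Y i j) (Y i j)
  simpa using this

lemma S_smul (c : ℝ) (X : Mat N) : S (c • X) = |c| * S X := by
  unfold S
  simp [Finset.mul_sum, abs_mul]

lemma continuous_S : Continuous (S : Mat N → ℝ) := by
  unfold S
  fun_prop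

/-- A norm on the matrices. -/
def IsNorm (p : Seminorm ℝ (Mat N)) : Prop := ∀ X, p X = 0 → X = 0

lemma upper (p : Seminorm ℝ (Mat N)) : ∃ C > 0, ∀ X, p X ≤ C * S X := by
  refine ⟨1 + ∑ i, ∑ j, p (Matrix.single i j 1), ?_, fun X => ?_⟩
  · have : 0 ≤ ∑ i, ∑ j, p (Matrix.single i j (1 : ℝ)) :=
      Finset.sum_nonneg fun i _ => Finset.sum_nonneg fun j _ => apply_nonneg p _
    linarith
  · have hsub : ∀ (s : Finset (Fin N)) (g : Fin N → Mat N), p (∑ i ∈ s, g i) ≤ ∑ i ∈ s, p (g i) :=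
      fun s g => Finset.le_sum_of_subadditive (fun X => p X) (map_zero p).le
        (fun x y => map_add_le_add p x y) s g
    have h0 : p X ≤ ∑ i, ∑ j, |X i j| * p (Matrix.single i j 1) := by
      conv_lhs => rw [Matrix.matrix_eq_sum_single X]
      refine (hsub _ _).trans ?_
      refine Finset.sum_le_sum fun i _ => (hsub _ _).trans ?_
      refine Finset.sum_le_sum fun j _ => le_of_eq ?_
      have : Matrix.single i j (X i j) = X i j • Matrix.single i j (1 : ℝ) := by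
        rw [Matrix.smul_single]; simp
      rw [this, map_smul_eq_mul]
      rfl
    have h1 : ∀ i j : Fin N, p (Matrix.single i j (1 : ℝ)) ≤
        1 + ∑ i, ∑ j, p (Matrix.single i j (1 : ℝ)) := by
      intro i j
      have a := Finset.single_le_sum (f := fun j => p (Matrix.single i j (1 : ℝ)))
        (fun j _ => apply_nonneg p _) (Finset.mem_univ j)
      have b := Finset.single_le_sum (f := fun i => ∑ j, p (Matrix.single i j (1 : ℝ)))
        (fun i _ => Finset.sum_nonneg fun j _ => apply_nonneg p _) (Finset.mem_univ i)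
      linarith [a, b]
    refine h0.trans ?_
    unfold S
    rw [Finset.mul_sum]
    refine Finset.sum_le_sum fun i _ => ?_
    rw [Finset.mul_sum]
    refine Finset.sum_le_sum fun j _ => ?_
    rw [mul_comm]
    exact mul_le_mul_of_nonneg_right (h1 i j) (abs_nonneg _)

lemma lower (p : Seminorm ℝ (Mat N)) (hp : IsNorm p) : ∃ c > 0, ∀ X, c * S X ≤ p X := by
  obtain ⟨C, hC, hup⟩ := upper p
  have hcont : Continuous p := by
    rw [continuous_iff_continuousAt]
    intro X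
    rw [ContinuousAt, tendsto_iff_dist_tendsto_zero]
    have h1 : Tendsto (fun Y => C * S (Y - X)) (𝓝 X) (𝓝 0) := by
      have : Continuous fun Y : Mat N => C * S (Y - X) :=
        continuous_const.mul (continuous_S.comp (continuous_id.sub continuous_const))
      have h2 := this.tendsto X
      simpa [S] using h2
    refine squeeze_zero (fun _ => dist_nonneg) (fun Y => ?_) h1
    rw [Real.dist_eq]
    exact (abs_sub_map_le_sub p Y X).trans (hup _)
  have hK : IsCompact {X : Mat N | S X = 1} := by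
    refine IsCompact.of_isClosed_subset (s := {X : Mat N | ∀ i ∈ Set.univ, X i ∈
      {x : Fin N → ℝ | ∀ j ∈ Set.univ, x j ∈ Set.Icc (-1 : ℝ) 1}}) ?_
      (isClosed_eq continuous_S continuous_const) ?_
    · exact isCompact_univ_pi fun i => isCompact_univ_pi fun j => isCompact_Icc
    · intro X hX i _ j _
      have := entry_le_S X i j
      rw [show S X = 1 from hX] at this
      exact abs_le.1 this
  rcases Set.eq_empty_or_nonempty {X : Mat N | S X = 1} with he | hne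
  · refine ⟨1, one_pos, fun X => ?_⟩
    have hS : S X = 0 := by
      by_contra h
      have hpos : 0 < S X := lt_of_le_of_ne (S_nonneg X) (Ne.symm h)
      have : (S X)⁻¹ • X ∈ {X : Mat N | S X = 1} := by
        show S ((S X)⁻¹ • X) = 1
        rw [S_smul, abs_of_pos (inv_pos.2 hpos), inv_mul_cancel₀ h]
      rw [he] at this
      exact this
    rw [hS, mul_zero]
    exact apply_nonneg p X
  · obtain ⟨X₀, hX₀, hmin⟩ := hK.exists_isMinOn hne hcont.continuousOn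
    have hp0 : 0 < p X₀ := by
      refine lt_of_le_of_ne (apply_nonneg p X₀) fun h => ?_
      have := hp X₀ h.symm
      rw [Set.mem_ofPred_eq, this] at hX₀
      simp [S] at hX₀
    refine ⟨p X₀, hp0, fun X => ?_⟩
    rcases eq_or_lt_of_le (S_nonneg X) with h | h
    · rw [← h, mul_zero]; exact apply_nonneg p X
    · have hm : (S X)⁻¹ • X ∈ {X : Mat N | S X = 1} := by
        show S ((S X)⁻¹ • X) = 1
        rw [S_smul, abs_of_pos (inv_pos.2 h), inv_mul_cancel₀ h.ne']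
      have h2 : p X₀ ≤ p ((S X)⁻¹ • X) := hmin hm
      rw [map_smul_eq_mul, Real.norm_eq_abs, abs_of_pos (inv_pos.2 h)] at h2
      have h3 := mul_le_mul_of_nonneg_right h2 h.le
      rwa [mul_comm _ (p X), mul_assoc, inv_mul_cancel₀ h.ne', mul_one] at h3

lemma roots_squeeze {u v : ℕ → ℝ} {c C L : ℝ} (hc : 0 < c) (hC : 0 < C) (hv : ∀ n, 0 ≤ v n)
    (h1 : ∀ n, c * v n ≤ u n) (h2 : ∀ n, u n ≤ C * v n) (hL : Tendsto (roots v) atTop (𝓝 L)) :
    Tendsto (roots u) atTop (𝓝 L) := by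
  have hroot : ∀ a : ℝ, 0 < a → Tendsto (fun n : ℕ => a ^ (1 / (n : ℝ))) atTop (𝓝 1) := by
    intro a ha
    have h := (tendsto_const_nhds (x := a)).rpow (tendsto_one_div_atTop_nhds_zero_nat (𝕜 := ℝ))
      (Or.inl ha.ne')
    simpa using h
  have e1 := (hroot c hc).mul hL
  have e2 := (hroot C hC).mul hL
  rw [one_mul] at e1 e2
  refine tendsto_of_tendsto_of_tendsto_of_le_of_le e1 e2 (fun n => ?_) (fun n => ?_)
  · simp only [roots]
    rw [← Real.mul_rpow hc.le (hv n)]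
    exact Real.rpow_le_rpow (mul_nonneg hc.le (hv n)) (h1 n) (by positivity)
  · simp only [roots]
    rw [← Real.mul_rpow hC.le (hv n)]
    exact Real.rpow_le_rpow ((mul_nonneg hc.le (hv n)).trans (h1 n)) (h2 n) (by positivity)

lemma maxMin_le_mul {f g : Mat N → ℝ} {C : ℝ} (hC : 0 ≤ C) (h : ∀ X, f X ≤ C * g X)
    {𝒜 ℬ : Finset (Mat N)} (h𝒜 : 𝒜.Nonempty) (hℬ : ℬ.Nonempty) (n : ℕ) :
    maxMin f 𝒜 ℬ n ≤ C * maxMin g 𝒜 ℬ n := by
  refine maxMin_le h𝒜 fun A => ?_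
  obtain ⟨B, hB⟩ := exists_B (f := g) h𝒜 hℬ A
  exact ⟨B, (h _).trans (mul_le_mul_of_nonneg_left hB hC)⟩

lemma minMax_le_mul {f g : Mat N → ℝ} {C : ℝ} (hC : 0 ≤ C) (h : ∀ X, f X ≤ C * g X)
    {𝒜 ℬ : Finset (Mat N)} (h𝒜 : 𝒜.Nonempty) (hℬ : ℬ.Nonempty) (n : ℕ) :
    minMax f 𝒜 ℬ n ≤ C * minMax g 𝒜 ℬ n := by
  obtain ⟨B, hB⟩ := exists_B' (f := g) (n := n) h𝒜 hℬ
  exact minMax_le h𝒜 ⟨B, fun A => (h _).trans (mul_le_mul_of_nonneg_left (hB A) hC)⟩

/-! ### The example -/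

/-- The letter matrices. Coordinates: phase one `(x, y)`, phase two `(x, y, z)`. -/
def Lt (d : ℤ) : Matrix (Fin 5) (Fin 5) ℤ :=
  !![1, 0, 0, 0, 0;
     d + 1, 17, 0, 0, 0;
     0, 0, 1, 0, 0;
     0, 0, 0, 1, 0;
     0, 0, d + 1, 0, 17]

/-- The mark matrix. -/
def Mk : Matrix (Fin 5) (Fin 5) ℤ :=
  !![0, 0, 0, 1, -1;
     0, 0, 0, 0, 0;
     1, 0, 0, 0, 0;
     0, 1, 0, 0, 0;
     0, 0, 0, 0, 0]

/-- Real version of an integer matrix. -/
def toR (X : Matrix (Fin 5) (Fin 5) ℤ) : Mat 5 := X.map (Int.castRingHom ℝ)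

lemma toR_mul (X Y : Matrix (Fin 5) (Fin 5) ℤ) : toR (X * Y) = toR X * toR Y :=
  Matrix.map_mul

lemma toR_one : toR 1 = 1 := by
  unfold toR
  exact Matrix.map_one _ (map_zero _) (map_one _)

open Classical in
/-- The set `𝒜`. -/
noncomputable def sA : Finset (Mat 5) := Finset.univ.image fun d : Fin 16 => toR (Lt (d : ℕ))

open Classical in
/-- The set `ℬ`. -/
noncomputable def sB : Finset (Mat 5) := {1, toR Mk}

lemma sA_nonempty : sA.Nonempty := Finset.image_nonempty.2 Finset.univ_nonempty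
lemma sB_nonempty : sB.Nonempty := ⟨1, by simp [sB]⟩

/-- integer version of the product -/
def zProd {n : ℕ} (A B : Fin n → Matrix (Fin 5) (Fin 5) ℤ) : Matrix (Fin 5) (Fin 5) ℤ :=
  (List.ofFn fun i => A i * B i).reverse.prod

lemma zProd_succ {n : ℕ} (A B : Fin (n + 1) → Matrix (Fin 5) (Fin 5) ℤ) :
    zProd A B = A (Fin.last n) * B (Fin.last n) *
      zProd (fun i => A i.castSucc) (fun i => B i.castSucc) := by
  unfold zProd
  rw [List.ofFn_succ']
  simp

lemma toR_zProd {n : ℕ} (A B : Fin n → Matrix (Fin 5) (Fin 5) ℤ) :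
    toR (zProd A B) = altProd (fun i => toR (A i)) (fun i => toR (B i)) := by
  induction n with
  | zero => simp [zProd, altProd, toR_one]
  | succ n ih => rw [zProd_succ, altProd_succ, toR_mul, toR_mul, ih]

/-- The value (base 17) of the word `u s, …, u (s+n-1)`. -/
def val (u : ℕ → Fin 16) (s : ℕ) : ℕ → ℕ
  | 0 => 0
  | n + 1 => 17 * val u s n + ((u (s + n) : ℕ) + 1)

lemma val_inj (u : ℕ → Fin 16) (s t : ℕ) : ∀ n m, val u s n = val u t m →
    n = m ∧ ∀ j < n, u (s + j) = u (t + j) := by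
  intro n
  induction n with
  | zero =>
    intro m h
    cases m with
    | zero => exact ⟨rfl, fun j hj => absurd hj (Nat.not_lt_zero j)⟩
    | succ m => simp only [val] at h; omega
  | succ n ih =>
    intro m h
    cases m with
    | zero => simp only [val] at h; omega
    | succ m =>
      simp only [val] at h
      have h1 := (u (s + n)).isLt
      have h2 := (u (t + m)).isLt
      obtain ⟨h3, h4⟩ := ih m (by omega)
      subst h3
      refine ⟨rfl, fun j hj => ?_⟩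
      rcases Nat.lt_succ_iff_lt_or_eq.1 hj with h5 | h5
      · exact h4 j h5
      · subst h5
        apply Fin.ext
        omega

/-- The invariant: the first column of the product. -/
def Inv (u : ℕ → Fin 16) (n : ℕ) (v : Fin 5 → ℤ) : Prop :=
  (∃ x : ℤ, x ≠ 0 ∧ ∃ s l, s + l = n ∧ v = ![x, x * val u s l, 0, 0, 0]) ∨
  (∃ x : ℤ, x ≠ 0 ∧ ∃ s l m, s + l + m = n ∧ 0 < m ∧
    v = ![0, 0, x, x * val u s l, x * val u (s + l) m])

lemma Inv.letter {u : ℕ → Fin 16} {n : ℕ} {v : Fin 5 → ℤ} (h : Inv u n v) :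
    Inv u (n + 1) (Lt (u n : ℕ) *ᵥ v) := by
  rcases h with ⟨x, hx, s, l, hs, rfl⟩ | ⟨x, hx, s, l, m, hs, hm, rfl⟩
  · refine Or.inl ⟨x, hx, s, l + 1, by omega, ?_⟩
    subst hs
    funext i
    fin_cases i <;> simp [Lt, Matrix.mulVec, dotProduct, Fin.sum_univ_five, val]
    ring
  · refine Or.inr ⟨x, hx, s, l, m + 1, by omega, by omega, ?_⟩
    subst hs
    funext i
    fin_cases i <;> simp [Lt, Matrix.mulVec, dotProduct, Fin.sum_univ_five, val]
    ring

lemma Inv.mark {u : ℕ → Fin 16} {n R : ℕ} (hn : n < R)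
    (hu : ∀ i e, 0 < e → i + 2 * e ≤ R → ∃ j, j < e ∧ u (i + j) ≠ u (i + e + j))
    {v : Fin 5 → ℤ} (h : Inv u n v) :
    Inv u (n + 1) (Lt (u n : ℕ) *ᵥ (Mk *ᵥ v)) := by
  rcases h with ⟨x, hx, s, l, hs, rfl⟩ | ⟨x, hx, s, l, m, hs, hm, rfl⟩
  · refine Or.inr ⟨x, hx, s, l, 1, by omega, by omega, ?_⟩
    subst hs
    funext i
    fin_cases i <;> simp [Lt, Mk, Matrix.mulVec, dotProduct, Fin.sum_univ_five, val]
    ring
  · refine Or.inl ⟨x * val u s l - x * val u (s + l) m, ?_, n, 1, rfl, ?_⟩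
    · rw [← mul_sub]
      refine mul_ne_zero hx (sub_ne_zero.2 fun h => ?_)
      obtain ⟨h1, h2⟩ := val_inj u s (s + l) l m (by exact_mod_cast h)
      subst h1
      obtain ⟨j, hj, hne⟩ := hu s l hm (by omega)
      exact hne (h2 j hj)
    · funext i
      fin_cases i <;> simp [Lt, Mk, Matrix.mulVec, dotProduct, Fin.sum_univ_five, val] <;> ring

lemma inv_prod {u : ℕ → Fin 16} {R : ℕ}
    (hu : ∀ i e, 0 < e → i + 2 * e ≤ R → ∃ j, j < e ∧ u (i + j) ≠ u (i + e + j)) :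
    ∀ n ≤ R, ∀ B : Fin n → Matrix (Fin 5) (Fin 5) ℤ, (∀ i, B i = 1 ∨ B i = Mk) →
      Inv u n (zProd (fun i : Fin n => Lt (u i : ℕ)) B *ᵥ Pi.single 0 1) := by
  intro n
  induction n with
  | zero =>
    intro _ B _
    refine Or.inl ⟨1, one_ne_zero, 0, 0, rfl, ?_⟩
    simp only [zProd, List.ofFn_zero, List.reverse_nil, List.prod_nil, Matrix.one_mulVec, val]
    funext i
    fin_cases i <;> simp
  | succ n ih =>
    intro hn B hB
    have h := ih (by omega) (fun i => B i.castSucc) (fun i => hB _)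
    rw [zProd_succ, ← Matrix.mulVec_mulVec, ← Matrix.mulVec_mulVec]
    rcases hB (Fin.last n) with h1 | h1
    · rw [h1, Matrix.one_mulVec]
      exact h.letter
    · rw [h1]
      exact h.mark (R := R) (by omega) hu

lemma Inv.one_le {u : ℕ → Fin 16} {n : ℕ} {v : Fin 5 → ℤ} (h : Inv u n v) : ∃ i, 1 ≤ |v i| := by
  rcases h with ⟨x, hx, s, l, hs, rfl⟩ | ⟨x, hx, s, l, m, hs, hm, rfl⟩
  · exact ⟨0, by simpa using Int.one_le_abs hx⟩
  · exact ⟨2, by simpa using Int.one_le_abs hx⟩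

/-- For every length there is an `𝒜`-word all of whose products have an entry of modulus `≥ 1`. -/
lemma exists_A (n : ℕ) : ∃ A : Fin n → sA, ∀ B : Fin n → sB,
    1 ≤ S (altProd (fun i => (A i : Mat 5)) (fun i => (B i : Mat 5))) := by
  obtain ⟨u, hu⟩ := Pool.Agent.H205R2.NR.exists_sqfree n
  refine ⟨fun i => ⟨toR (Lt (u i : ℕ)), Finset.mem_image.2 ⟨u i, Finset.mem_univ _, rfl⟩⟩,
    fun B => ?_⟩
  have hB : ∀ i, ∃ Z : Matrix (Fin 5) (Fin 5) ℤ, (Z = 1 ∨ Z = Mk) ∧ (B i : Mat 5) = toR Z := by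
    intro i
    have := (B i).2
    simp only [sB, Finset.mem_insert, Finset.mem_singleton] at this
    rcases this with h | h
    · exact ⟨1, Or.inl rfl, by rw [h, toR_one]⟩
    · exact ⟨Mk, Or.inr rfl, h⟩
  choose Z hZ hBZ using hB
  obtain ⟨i, hi⟩ := (inv_prod hu n le_rfl Z hZ).one_le
  have h1 : altProd (fun i : Fin n => toR (Lt (u i : ℕ))) (fun i => (B i : Mat 5)) =
      toR (zProd (fun i : Fin n => Lt (u i : ℕ)) Z) := by
    rw [toR_zProd]
    congr 1
    funext i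
    exact hBZ i
  show 1 ≤ S (altProd (fun i : Fin n => toR (Lt (u i : ℕ))) (fun i => (B i : Mat 5)))
  rw [h1]
  refine le_trans ?_ (entry_le_S _ i 0)
  have h2 : (zProd (fun i : Fin n => Lt (u i : ℕ)) Z *ᵥ Pi.single 0 1) i =
      zProd (fun i : Fin n => Lt (u i : ℕ)) Z i 0 := by simp
  rw [h2] at hi
  simp only [toR, Matrix.map_apply, Int.coe_castRingHom]
  exact_mod_cast hi

/-! ### The spectral radius part -/

/-- An arbitrary product of letters. -/
def Wt (v w : ℤ) : Matrix (Fin 5) (Fin 5) ℤ :=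
  !![1, 0, 0, 0, 0;
     v, w, 0, 0, 0;
     0, 0, 1, 0, 0;
     0, 0, 0, 1, 0;
     0, 0, v, 0, w]

lemma Lt_mul_Wt (d v w : ℤ) : Lt d * Wt v w = Wt (d + 1 + 17 * v) (17 * w) := by
  unfold Lt Wt
  ext i j
  fin_cases i <;> fin_cases j <;> simp [Matrix.mul_apply, Fin.sum_univ_five]

lemma WM_pow (v w : ℤ) : (Wt v w * Mk) ^ 4 = 0 := by
  have h2 : (Wt v w * Mk) * (Wt v w * Mk) =
      !![-v, 1, 0, 0, 0; -(v * v), v, 0, 0, 0; 0, 0, 0, 1, -1; 0, 0, 0, v, -v; 0, 0, 0, v, -v] := by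
    unfold Mk Wt
    ext i j
    fin_cases i <;> fin_cases j <;> simp [Matrix.mul_apply, Fin.sum_univ_five]
  have h4 : (Wt v w * Mk) ^ 4 = ((Wt v w * Mk) * (Wt v w * Mk)) * ((Wt v w * Mk) * (Wt v w * Mk)) := by
    simp only [pow_succ, pow_zero, one_mul, mul_assoc]
  rw [h4, h2]
  ext i j
  fin_cases i <;> fin_cases j <;> simp [Matrix.mul_apply, Fin.sum_univ_five] <;> ring

/-- The word `(Mk, 1, …, 1)` makes every product nilpotent. -/
lemma exists_Wt (n : ℕ) (A : Fin (n + 1) → Matrix (Fin 5) (Fin 5) ℤ)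
    (hA : ∀ i, ∃ d : ℤ, A i = Lt d) :
    ∃ v w : ℤ, zProd A (fun i => if i = 0 then Mk else 1) = Wt v w * Mk := by
  induction n with
  | zero =>
    obtain ⟨d, hd⟩ := hA 0
    refine ⟨d + 1, 17, ?_⟩
    simp [zProd, hd, Lt, Wt]
  | succ n ih =>
    obtain ⟨v, w, h⟩ := ih (fun i => A i.castSucc) (fun i => hA _)
    obtain ⟨d, hd⟩ := hA (Fin.last (n + 1))
    refine ⟨d + 1 + 17 * v, 17 * w, ?_⟩
    rw [zProd_succ, hd]
    have h1 : (fun i : Fin (n + 1) => if i.castSucc = 0 then Mk else 1) =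
        fun i : Fin (n + 1) => if i = 0 then Mk else 1 := by
      funext i
      simp only [Fin.castSucc_eq_zero_iff]
    rw [h1, h, if_neg (by simp [Fin.ext_iff]), mul_one, ← mul_assoc, Lt_mul_Wt]

lemma rho_nonneg (X : Mat N) : 0 ≤ rho X := ENNReal.toReal_nonneg

lemma rho_eq_zero {X : Mat N} {k : ℕ} (hX : X ^ k = 0) : rho X = 0 := by
  unfold rho
  have h : ((X.map (algebraMap ℝ ℂ)) : Matrix (Fin N) (Fin N) ℂ) ^ k = 0 := by
    have h1 : (X ^ k).map (algebraMap ℝ ℂ) = (X.map (algebraMap ℝ ℂ)) ^ k :=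
      Matrix.map_pow X (algebraMap ℝ ℂ) k
    rw [← h1, hX]
    exact Matrix.map_zero _ (map_zero _)
  have h2 : spectralRadius ℂ (X.map (algebraMap ℝ ℂ)) = 0 := by
    unfold spectralRadius
    refine le_antisymm (iSup₂_le fun z hz => ?_) bot_le
    have h3 := spectrum.pow_mem_pow _ k hz
    rw [h] at h3
    rcases subsingleton_or_nontrivial (Matrix (Fin N) (Fin N) ℂ) with hs | hn
    · exact absurd h3 (by
        rw [spectrum.of_subsingleton]
        exact Set.notMem_empty _)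
    · rw [spectrum.zero_eq, Set.mem_singleton_iff] at h3
      rcases Nat.eq_zero_or_pos k with h0 | h0
      · subst h0
        rw [pow_zero] at h3
        exact absurd h3 one_ne_zero
      · have h5 : z = 0 := (pow_eq_zero_iff (by omega)).1 h3
        simp [h5]
  rw [h2, ENNReal.toReal_zero]

lemma rho_prod_zero (n : ℕ) : ∃ B : Fin (n + 1) → sB, ∀ A : Fin (n + 1) → sA,
    rho (altProd (fun i => (A i : Mat 5)) (fun i => (B i : Mat 5))) = 0 := by
  refine ⟨fun i => if i = 0 then ⟨toR Mk, by simp [sB]⟩ else ⟨1, by simp [sB]⟩, fun A => ?_⟩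
  have hA : ∀ i, ∃ Z : Matrix (Fin 5) (Fin 5) ℤ, (∃ d : ℤ, Z = Lt d) ∧ (A i : Mat 5) = toR Z := by
    intro i
    have := (A i).2
    simp only [sA, Finset.mem_image, Finset.mem_univ, true_and] at this
    obtain ⟨d, hd⟩ := this
    exact ⟨Lt (d : ℕ), ⟨_, rfl⟩, hd.symm⟩
  choose Z hZ hAZ using hA
  obtain ⟨v, w, hvw⟩ := exists_Wt n Z hZ
  refine rho_eq_zero (k := 4) ?_
  have h1 : altProd (fun i => (A i : Mat 5)) (fun i =>
      ((if i = 0 then ⟨toR Mk, by simp [sB]⟩ else ⟨1, by simp [sB]⟩ : sB) : Mat 5)) =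
      toR (zProd Z (fun i => if i = 0 then Mk else 1)) := by
    rw [toR_zProd]
    congr 1
    · funext i; exact hAZ i
    · funext i
      split_ifs
      · rfl
      · exact toR_one.symm
  rw [h1, hvw]
  have h2 : ∀ X : Matrix (Fin 5) (Fin 5) ℤ, toR X ^ 4 = toR (X ^ 4) := by
    intro X
    simp only [pow_succ, pow_zero, one_mul, toR_mul]
  rw [h2, WM_pow]
  exact Matrix.map_zero _ (map_zero _)

lemma maxMin_rho (n : ℕ) (hn : 1 ≤ n) : maxMin rho sA sB n = 0 := by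
  obtain ⟨n, rfl⟩ := Nat.exists_eq_succ_of_ne_zero (by omega : n ≠ 0)
  obtain ⟨B, hB⟩ := rho_prod_zero n
  refine le_antisymm (maxMin_le sA_nonempty fun A => ⟨B, (hB A).le⟩) ?_
  have : Nonempty sA := sA_nonempty.to_subtype
  exact le_maxMin sB_nonempty ⟨Classical.arbitrary _, fun B => rho_nonneg _⟩

lemma minMax_rho (n : ℕ) (hn : 1 ≤ n) : minMax rho sA sB n = 0 := by
  obtain ⟨n, rfl⟩ := Nat.exists_eq_succ_of_ne_zero (by omega : n ≠ 0)
  obtain ⟨B, hB⟩ := rho_prod_zero n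
  refine le_antisymm (minMax_le sA_nonempty ⟨B, fun A => (hB A).le⟩) ?_
  have : Nonempty sA := sA_nonempty.to_subtype
  exact le_minMax sB_nonempty fun B => ⟨Classical.arbitrary _, rho_nonneg _⟩

lemma roots_zero {u : ℕ → ℝ} (h : ∀ n, 1 ≤ n → u n = 0) :
    roots u =ᶠ[atTop] fun _ => (0 : ℝ) := by
  filter_upwards [eventually_ge_atTop 1] with n hn
  rw [roots, h n hn, Real.zero_rpow]
  have : (0 : ℝ) < n := by exact_mod_cast hn
  positivity

/-- **Theorem.** There are finite nonempty sets `𝒜`, `ℬ` of real `5 × 5` matrices for which all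
four identities fail: the limits `μ` and `η` exist for every norm (and do not depend on it), and
`μ̂ < μ`, `μ̌ < μ`, `η̂ < η`, `η̌ < η`. -/
theorem result : ∃ (N : ℕ) (𝒜 ℬ : Finset (Mat N)), 1 ≤ N ∧ 𝒜.Nonempty ∧ ℬ.Nonempty ∧
    ∃ μ η : ℝ,
      (∀ p : Seminorm ℝ (Mat N), IsNorm p → Tendsto (roots (maxMin p 𝒜 ℬ)) atTop (𝓝 μ) ∧
        Tendsto (roots (minMax p 𝒜 ℬ)) atTop (𝓝 η)) ∧
      muHat 𝒜 ℬ < μ ∧ etaHat 𝒜 ℬ < η ∧ muCheck 𝒜 ℬ < μ ∧ etaCheck 𝒜 ℬ < η := by
  have hS1 : ∀ n, 1 ≤ maxMin S sA sB n := fun n => le_maxMin sB_nonempty (exists_A n)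
  have hS2 : ∀ n, 1 ≤ minMax S sA sB n := fun n => le_minMax sB_nonempty fun B => by
    obtain ⟨A, hA⟩ := exists_A n
    exact ⟨A, hA B⟩
  obtain ⟨μ, hμ, hμt⟩ := fekete hS1 (maxMin_mul S_mul S_nonneg sA_nonempty sB_nonempty)
  obtain ⟨η, hη, hηt⟩ := fekete hS2 (minMax_mul S_mul S_nonneg sA_nonempty sB_nonempty)
  refine ⟨5, sA, sB, by norm_num, sA_nonempty, sB_nonempty, μ, η, fun p hp => ?_, ?_, ?_, ?_, ?_⟩
  · obtain ⟨C, hC, hup⟩ := upper p
    obtain ⟨c, hc, hlo⟩ := lower p hp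
    have hlo' : ∀ X, S X ≤ c⁻¹ * p X := fun X => by
      rw [← div_eq_inv_mul, le_div_iff₀ hc, mul_comm]
      exact hlo X
    constructor
    · refine roots_squeeze hc hC (fun n => zero_le_one.trans (hS1 n)) (fun n => ?_) (fun n => ?_) hμt
      · have := maxMin_le_mul (inv_pos.2 hc).le hlo' sA_nonempty sB_nonempty n
        rw [← div_eq_inv_mul, le_div_iff₀ hc, mul_comm] at this
        exact this
      · exact maxMin_le_mul hC.le hup sA_nonempty sB_nonempty n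
    · refine roots_squeeze hc hC (fun n => zero_le_one.trans (hS2 n)) (fun n => ?_) (fun n => ?_) hηt
      · have := minMax_le_mul (inv_pos.2 hc).le hlo' sA_nonempty sB_nonempty n
        rw [← div_eq_inv_mul, le_div_iff₀ hc, mul_comm] at this
        exact this
      · exact minMax_le_mul hC.le hup sA_nonempty sB_nonempty n
  · rw [muHat, limsup_congr (roots_zero maxMin_rho), limsup_const]
    linarith
  · rw [etaHat, limsup_congr (roots_zero minMax_rho), limsup_const]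
    linarith
  · rw [muCheck, liminf_congr (roots_zero maxMin_rho), liminf_const]
    linarith
  · rw [etaCheck, liminf_congr (roots_zero minMax_rho), liminf_const]
    linarith

end Pool.Agent.Results.MP_36f7ac_an.AllFourFail
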